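import Pool.Agent.Equi60.Fin

namespace Pool.Agent.Results.MP_60b111_ag.Equianharmonic

open Pool.Agent.Voisin60

/-- The quintic form `A_0 X^4 + 4 A_1 X^3 + 6 A_2 X^2 + 4 A_3 X + A_4` in `X, Y, Z`, where the
`A_i` are forms in `Y, Z`. -/
noncomputable def quintic (A : Fin 5 → MvPolynomial (Fin 2) ℂ) : MvPolynomial (Fin 3) ℂ :=
  MvPolynomial.rename Fin.succ (A 0) * MvPolynomial.X 0 ^ 4
    + 4 * MvPolynomial.rename Fin.succ (A 1) * MvPolynomial.X 0 ^ 3
    + 6 * MvPolynomial.rename Fin.succ (A 2) * MvPolynomial.X 0 ^ 2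
    + 4 * MvPolynomial.rename Fin.succ (A 3) * MvPolynomial.X 0
    + MvPolynomial.rename Fin.succ (A 4)

/-- Let `F` be a quintic form vanishing at the point `p = (1:0:0)` of the line `Z = 0`, so
`F = A_0 X^4 + 4 A_1 X^3 + 6 A_2 X^2 + 4 A_3 X + A_4` with forms `A_i` of degree `i + 1` in `Y, Z`.
Suppose that every line through `p` meets `F = 0` residually in an equianharmonic quadruple
(`A_0 A_4 - 4 A_1 A_3 + 3 A_2^2 = 0`), and that the discriminant form of degree nine has nine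
different zeros. Then for all zero cycles `x, y` of degree zero on the double plane
`W^2 = Z F(X,Y,Z)`, the cycle `1152 (x × y - y × x)` is rationally equivalent to zero. -/
theorem result : ∀ (A : Fin 5 → MvPolynomial (Fin 2) ℂ),
    (∀ i : Fin 5, (A i).IsHomogeneous (i + 1)) →
    A 0 * A 4 - 4 * A 1 * A 3 + 3 * A 2 ^ 2 = 0 →
    ∀ (a b : Fin 9 → ℂ), (∀ i j, i ≠ j → a i * b j - a j * b i ≠ 0) →
    A 0 * A 2 * A 4 + 2 * A 1 * A 2 * A 3 - A 2 ^ 3 - A 1 ^ 2 * A 4 - A 0 * A 3 ^ 2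
      = ∏ j, (MvPolynomial.C (b j) * MvPolynomial.X 0 - MvPolynomial.C (a j) * MvPolynomial.X 1) →
    ∀ (x y : Pt (quintic A) →₀ ℤ), deg x = 0 → deg y = 0 →
      1152 • (cross x y - cross y x) ∈ RatEquiv (quintic A) := by
  intro A hA hI a b hab hJ x y hx hy
  have hyp : Pool.Agent.Equi60.Hyp A := by
    refine ⟨hA, fun Y Z => ?_⟩
    have := congrArg (MvPolynomial.eval ![Y, Z]) hI
    simpa [Pool.Agent.Equi60.Ia, Pool.Agent.Equi60.av] using this
  refine Pool.Agent.Equi60.main hyp hab (fun Y Z => ?_) x y hx hy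
  have := congrArg (MvPolynomial.eval ![Y, Z]) hJ
  simpa [Pool.Agent.Equi60.Ja, Pool.Agent.Equi60.av] using this

end Pool.Agent.Results.MP_60b111_ag.Equianharmonic
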