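import Pool.Agent.Voisin60.Bilin

namespace Pool.Agent.Results.MP_60b111_ag.OddQuintic

open Pool.Agent.Voisin60

/-- Let `F` be a quintic form with `F(-X,-Y,Z) = -F(X,Y,Z)` and `t : (X:Y:Z:W) ↦ (-X:-Y:Z:iW)` the
automorphism of the double plane `W^2 = Z F(X,Y,Z)`. For all zero cycles `a, b` of degree zero,
`8 (a × t_* b - t_* a × b)` is rationally equivalent to zero on the self-product. -/
theorem result : ∀ (F : MvPolynomial (Fin 3) ℂ), F.IsHomogeneous 5 → ∀ (hodd : IsOddForm F)
    (a b : Pt F →₀ ℤ), deg a = 0 → deg b = 0 →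
    8 • (cross a (Finsupp.mapDomain (tPt hodd) b) - cross (Finsupp.mapDomain (tPt hodd) a) b)
      ∈ RatEquiv F :=
  fun _ hF hodd a b ha hb => main hF hodd a b ha hb

end Pool.Agent.Results.MP_60b111_ag.OddQuintic
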